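import Pool.Agent.H17.Pent1

namespace Pool.Agent.Results.MP_2ce53a_nt.OnlyIf
open Pool.Agent.H17.Pent

theorem result :
    ∀ j k : ℕ, 3 ≤ j → j ≤ k → Universal j k → (j, k) ∈ L ∨ (j = 3 ∧ k = 57) := main

end Pool.Agent.Results.MP_2ce53a_nt.OnlyIf
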